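import Pool.Agent.H11.GMk
import Pool.Agent.H21.Sim

set_option autoImplicit false

namespace Pool.Agent.Results.MP_f934c9_lc.GI

open Pool.Agent.H11.PT SimpleGraph

/-- connected, and every two vertices are joined by exactly one shortest path -/
def Geodetic {V : Type} (G : SimpleGraph V) : Prop :=
  G.Connected ∧ ∀ u v, ∃! p : G.Walk u v, p.IsPath ∧ p.length = G.dist u v

/-- a graph: number of vertices and edge list -/
abbrev Gr := ℕ × List (ℕ × ℕ)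

/-- graph isomorphism -/
def Iso (x : Gr × Gr) : Prop := Nonempty (gr x.1.1 x.1.2 ≃g gr x.2.1 x.2.2)

/-- both graphs are geodetic -/
def Geo (x : Gr × Gr) : Prop := Geodetic (gr x.1.1 x.1.2) ∧ Geodetic (gr x.2.1 x.2.2)

def Crit {V : Type} (G : SimpleGraph V) : Prop :=
  ∀ t, ∃ h : V → ℕ, (∀ v, h v = 0 ↔ v = t) ∧ (∀ u v, G.Adj u v → h u ≤ h v + 1) ∧
    ∀ v, v ≠ t → ∃! u, G.Adj v u ∧ h u + 1 = h v

theorem Crit.iso {V W : Type} {G : SimpleGraph V} {H : SimpleGraph W} (e : G ≃g H) (c : Crit H) :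
    Crit G := by
  intro t
  obtain ⟨h, h0, h1, h2⟩ := c (e t)
  refine ⟨fun v => h (e v), fun v => by simp [h0], fun u v a => h1 _ _ (e.map_adj_iff.2 a),
    fun v hv => ?_⟩
  obtain ⟨u, ⟨a, b⟩, c⟩ := h2 (e v) (by simpa using hv)
  refine ⟨e.symm u, ⟨e.map_adj_iff.1 (by simpa using a), by simpa using b⟩, fun w hw => ?_⟩
  rw [← c (e w) ⟨e.map_adj_iff.2 hw.1, hw.2⟩]; simp

theorem Crit.geo {V : Type} [Nonempty V] {G : SimpleGraph V} (c : Crit G) : Geodetic G := by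
  have key : ∀ u t, ∃ n, (∀ p : G.Walk u t, n ≤ p.length) ∧ ∃! p : G.Walk u t, p.length = n := by
    intro u t
    obtain ⟨h, h0, h1, h2⟩ := c t
    have lb : ∀ v (p : G.Walk v t), h v ≤ p.length := by
      intro v p
      induction p with
      | nil => rw [(h0 _).2 rfl]; simp
      | cons a p ih => have := h1 _ _ a; have := ih h0 h2; simp; omega
    refine ⟨h u, lb u, ?_⟩
    generalize hn : h u = n
    induction n generalizing u with
    | zero =>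
      obtain rfl := (h0 u).1 hn
      exact ⟨.nil, rfl, fun p hp => (Walk.length_eq_zero_iff.1 hp).eq_nil⟩
    | succ n ih =>
      have hu : u ≠ t := fun e => by rw [(h0 u).2 e] at hn; omega
      obtain ⟨w, ⟨a, b⟩, cw⟩ := h2 u hu
      obtain ⟨p, hp, cp⟩ := ih w (by omega)
      refine ⟨.cons a p, by simp [hp], fun q hq => ?_⟩
      cases q with
      | nil => simp at hq
      | cons a' q =>
        have := lb _ q
        have := h1 _ _ a'
        simp only [Walk.length_cons] at hq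
        obtain rfl := cw _ ⟨a', by omega⟩
        rw [cp q (by show q.length = n; omega)]
  have cn : G.Connected := ⟨fun u v => by obtain ⟨n, -, p, -⟩ := key u v; exact ⟨p⟩⟩
  refine ⟨cn, fun u v => ?_⟩
  obtain ⟨n, lb, p, hp, cp⟩ := key u v
  have : G.dist u v = n := by
    obtain ⟨q, hq⟩ := cn.exists_walk_length_eq_dist u v
    have := lb q
    have := SimpleGraph.dist_le p
    omega
  exact ⟨p, ⟨Walk.isPath_of_length_eq_dist p (this ▸ hp), this ▸ hp⟩, fun q hq => cp q (this ▸ hq.2)⟩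

section
variable {W : Type}

def CA (a b c d : W) : Prop := (a = c ∧ (a = b ∧ c ≠ d ∨ a ≠ b ∧ c = d)) ∨ (a ≠ b ∧ c = b ∧ d = a)

open Classical in
noncomputable def D (a b c d : W) : ℕ :=
  if a = c then (if b = d then 0 else if a = b ∨ c = d then 1 else 2)
  else if b = c then (if d = a then 1 else if c = d then 2 else 3)
  else if d = a then (if a = b then 2 else 3)
  else if a = b then (if c = d then 3 else 4)
  else if c = d ∨ b = d then 4 else 5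

theorem D0 (a b c d : W) : D a b c d = 0 ↔ a = c ∧ b = d := by
  unfold D; grind

theorem D1 {a b a' b' : W} (c d : W) (h : CA a b a' b') : D a b c d ≤ D a' b' c d + 1 := by
  unfold D; unfold CA at h; grind

theorem D2 {a b c d : W} (h : ¬(a = c ∧ b = d)) :
    ∃ a' b', CA a b a' b' ∧ D a' b' c d + 1 = D a b c d := by
  by_cases e : a = b
  · subst e
    by_cases e : a = c
    · exact ⟨a, d, by unfold CA; grind, by unfold D; grind⟩
    · exact ⟨a, c, by unfold CA; grind, by unfold D; grind⟩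
  · by_cases e' : D a a c d + 1 = D a b c d
    · exact ⟨a, a, by unfold CA; grind, e'⟩
    · exact ⟨b, a, by unfold CA; grind, by unfold D at *; grind⟩

theorem D3 {a b c d a₁ b₁ a₂ b₂ : W} (h₁ : CA a b a₁ b₁) (h₂ : CA a b a₂ b₂)
    (e₁ : D a₁ b₁ c d + 1 = D a b c d) (e₂ : D a₂ b₂ c d + 1 = D a b c d) : a₁ = a₂ ∧ b₁ = b₂ := by
  unfold D CA at *; grind (splits := 40)

def Ad (x y : W × W × ℕ) : Prop :=
  (x.2.2 = 0 ∧ y.2.2 = 0 ∧ CA x.1 x.2.1 y.1 y.2.1) ∨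
    (x.1 = y.1 ∧ x.2.1 = y.2.1 ∧ (x.2.2 = 0 ∧ y.2.2 ≠ 0 ∨ x.2.2 ≠ 0 ∧ y.2.2 = 0))

def Ok (G : SimpleGraph W) (x : W × W × ℕ) : Prop :=
  x.2.2 = 0 ∨ (x.1 = x.2.1 ∧ x.2.2 < 3) ∨ (x.2.2 = 1 ∧ G.Adj x.1 x.2.1)

def Gam (G : SimpleGraph W) : SimpleGraph {x // Ok G x} where
  Adj x y := Ad x.1 y.1
  symm := ⟨fun x y h => by unfold Ad CA at *; grind⟩
  loopless := ⟨fun x h => by unfold Ad CA at *; grind⟩

theorem gam_crit (G : SimpleGraph W) : Crit (Gam G) := by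
  classical
  rintro ⟨⟨c, d, m⟩, ht⟩
  refine ⟨fun v => if v.1 = (c, d, m) then 0 else
    D v.1.1 v.1.2.1 c d + min v.1.2.2 1 + min m 1, ?_, ?_, ?_⟩
  · rintro ⟨⟨a, b, k⟩, hv⟩
    have := D0 a b c d
    simp only [Subtype.mk.injEq, Prod.mk.injEq]
    grind
  · rintro ⟨⟨a, b, k⟩, hv⟩ ⟨⟨a', b', k'⟩, hv'⟩ (⟨rfl, rfl, h⟩ | ⟨rfl, rfl, h⟩)
    · have := D1 c d h
      have := D0 a' b' c d
      simp only [Prod.mk.injEq]
      grind
    · have := D0 a b c d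
      simp only [Prod.mk.injEq] at *
      grind
  · rintro ⟨⟨a, b, k⟩, hv⟩ ne
    simp only [ne_eq, Subtype.mk.injEq, Prod.mk.injEq] at ne
    have z := D0 a b c d
    by_cases hk : k = 0
    · subst hk
      by_cases e : a = c ∧ b = d
      · obtain ⟨rfl, rfl⟩ := e
        refine ⟨⟨_, ht⟩, ⟨Or.inr (by grind), by simp only [Prod.mk.injEq]; grind⟩, ?_⟩
        rintro ⟨⟨a', b', k'⟩, hv'⟩ ⟨h, h'⟩
        have := D0 a' b' a b
        simp only [Subtype.mk.injEq, Prod.mk.injEq, Gam, Ad, CA] at *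
        grind
      · obtain ⟨a', b', h1, h2⟩ := D2 e
        have := D0 a' b' c d
        refine ⟨⟨(a', b', 0), Or.inl rfl⟩, ⟨Or.inl ⟨rfl, rfl, h1⟩, by simp only [Prod.mk.injEq]; grind⟩, ?_⟩
        rintro ⟨⟨a₂, b₂, k₂⟩, hv'⟩ ⟨⟨-, rfl, h⟩ | ⟨rfl, rfl, h⟩, h'⟩
        · have := D0 a₂ b₂ c d
          have := D3 (c := c) (d := d) h h1 (by simp only [Prod.mk.injEq] at *; grind) h2
          exact Subtype.ext (Prod.ext this.1 (Prod.ext this.2 rfl))
        · simp only [Prod.mk.injEq] at *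
          grind
    · refine ⟨⟨(a, b, 0), Or.inl rfl⟩, ⟨Or.inr (by grind), by simp only [Prod.mk.injEq]; grind⟩, ?_⟩
      rintro ⟨⟨a', b', k'⟩, hv'⟩ ⟨h, -⟩
      simp only [Subtype.mk.injEq, Prod.mk.injEq, Gam, Ad] at *
      grind

def Leaf {V : Type} (G : SimpleGraph V) (v : V) : Prop := ∀ u u', G.Adj v u → G.Adj v u' → u = u'

theorem Leaf.map {V V' : Type} {G : SimpleGraph V} {H : SimpleGraph V'} (e : G ≃g H) {v : V}
    (h : Leaf G v) : Leaf H (e v) := fun u u' a b => by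
  obtain ⟨u, rfl⟩ := e.surjective u
  obtain ⟨u', rfl⟩ := e.surjective u'
  rw [h u u' (e.map_adj_iff.1 a) (e.map_adj_iff.1 b)]

theorem leaf_iff (G : SimpleGraph W) (v : {x // Ok G x}) : Leaf (Gam G) v ↔ v.1.2.2 ≠ 0 := by
  obtain ⟨⟨a, b, k⟩, hv⟩ := v
  constructor
  · rintro h (rfl : k = 0)
    by_cases e : a = b
    · subst e
      have := h ⟨(a, a, 1), by simp [Ok]⟩ ⟨(a, a, 2), by simp [Ok]⟩ (by simp [Gam, Ad])
        (by simp [Gam, Ad])
      simp only [Subtype.mk.injEq, Prod.mk.injEq] at this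
      omega
    · have := h ⟨(a, a, 0), by simp [Ok]⟩ ⟨(b, a, 0), by simp [Ok]⟩ (by simp [Gam, Ad, CA, e])
        (by simp [Gam, Ad, CA, e])
      simp [e] at this
  · rintro h ⟨⟨a₁, b₁, k₁⟩, h₁⟩ ⟨⟨a₂, b₂, k₂⟩, h₂⟩ g₁ g₂
    simp only [Subtype.mk.injEq, Prod.mk.injEq, Gam, Ad] at *
    grind

def pt (G : SimpleGraph W) (a : W) : {x // Ok G x} := ⟨(a, a, 0), Or.inl rfl⟩

theorem pt_map {W' : Type} {G : SimpleGraph W} {H : SimpleGraph W'} (e : Gam G ≃g Gam H) (a : W) :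
    ∃ a', e (pt G a) = pt H a' := by
  let l₁ : {x // Ok G x} := ⟨(a, a, 1), by simp [Ok]⟩
  let l₂ : {x // Ok G x} := ⟨(a, a, 2), by simp [Ok]⟩
  have h₁ := (leaf_iff _ _).1 (((leaf_iff G l₁).2 (by simp [l₁])).map e)
  have h₂ := (leaf_iff _ _).1 (((leaf_iff G l₂).2 (by simp [l₂])).map e)
  have g₁ := e.map_adj_iff.2 (show (Gam G).Adj (pt G a) l₁ by simp [Gam, Ad, pt, l₁])
  have g₂ := e.map_adj_iff.2 (show (Gam G).Adj (pt G a) l₂ by simp [Gam, Ad, pt, l₂])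
  have ne : e l₁ ≠ e l₂ := e.injective.ne (by simp [l₁, l₂])
  generalize e l₁ = x, e l₂ = y, e (pt G a) = z at *
  obtain ⟨⟨a₁, b₁, k₁⟩, o₁⟩ := x
  obtain ⟨⟨a₂, b₂, k₂⟩, o₂⟩ := y
  obtain ⟨⟨c, d, m⟩, o⟩ := z
  refine ⟨c, ?_⟩
  have := H.loopless.irrefl c
  have := o₁
  have := o₂
  simp only [ne_eq, Subtype.mk.injEq, Prod.mk.injEq, Gam, Ad, pt] at *
  unfold Ok at *
  grind

theorem adj_map {W' : Type} {G : SimpleGraph W} {H : SimpleGraph W'} (e : Gam G ≃g Gam H)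
    {a b : W} {a' b' : W'} (ha : e (pt G a) = pt H a') (hb : e (pt G b) = pt H b')
    (h : G.Adj a b) : H.Adj a' b' := by
  have ne := h.ne
  let x : {x // Ok G x} := ⟨(a, b, 0), by simp [Ok]⟩
  let y : {x // Ok G x} := ⟨(b, a, 0), by simp [Ok]⟩
  let l : {x // Ok G x} := ⟨(a, b, 1), by simp [Ok, h]⟩
  have h₁ := (leaf_iff _ _).1 (((leaf_iff G l).2 (by simp [l])).map e)
  have g₁ := e.map_adj_iff.2 (show (Gam G).Adj (pt G a) x by simp [Gam, Ad, CA, pt, x, ne])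
  have g₂ := e.map_adj_iff.2 (show (Gam G).Adj x y by simp [Gam, Ad, CA, y, x, ne])
  have g₃ := e.map_adj_iff.2 (show (Gam G).Adj y (pt G b) by simp [Gam, Ad, CA, pt, y, ne.symm])
  have g₄ := e.map_adj_iff.2 (show (Gam G).Adj x l by simp [Gam, Ad, l, x])
  rw [ha] at g₁
  rw [hb] at g₃
  generalize e x = x', e y = y', e l = l' at *
  obtain ⟨⟨a₁, b₁, k₁⟩, o₁⟩ := x'
  obtain ⟨⟨a₂, b₂, k₂⟩, o₂⟩ := y'
  obtain ⟨⟨c, d, m⟩, o⟩ := l'
  clear ha hb
  have := o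
  simp only [ne_eq, Gam, Ad, pt, CA] at *
  unfold Ok at this
  grind

theorem gam_iso {W' : Type} (G : SimpleGraph W) (H : SimpleGraph W') :
    Nonempty (G ≃g H) ↔ Nonempty (Gam G ≃g Gam H) := by
  constructor
  · rintro ⟨e⟩
    refine ⟨⟨(e.toEquiv.prodCongr (e.toEquiv.prodCongr (Equiv.refl ℕ))).subtypeEquiv ?_, ?_⟩⟩
    · rintro ⟨a, b, k⟩
      simp [Ok, e.map_adj_iff]
    · rintro ⟨⟨a, b, k⟩, hv⟩ ⟨⟨a', b', k'⟩, hv'⟩
      simp [Gam, Ad, CA]
  · rintro ⟨e⟩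
    choose f hf using pt_map e
    choose g hg using pt_map e.symm
    have h1 : ∀ a, g (f a) = a := fun a => by
      have := hg (f a)
      rw [← hf a] at this
      simpa [pt] using this.symm
    have h2 : ∀ a, f (g a) = a := fun a => by
      have := hf (g a)
      rw [← hg a] at this
      simpa [pt] using this.symm
    refine ⟨⟨⟨f, g, h1, h2⟩, fun {a b} => ⟨fun h => ?_, adj_map e (hf a) (hf b)⟩⟩⟩
    simpa [h1] using adj_map e.symm (hg (f a)) (hg (f b)) h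

end

def vs (x : Gr) : List (ℕ × ℕ × ℕ) :=
  (List.range x.1 ×ˢ List.range x.1 ×ˢ List.range 3).filter fun v =>
    decide (v.2.2 = 0 ∨ v.1 = v.2.1 ∨ (v.2.2 = 1 ∧ ((v.1, v.2.1) ∈ x.2 ∨ (v.2.1, v.1) ∈ x.2)))

def ad (x y : ℕ × ℕ × ℕ) : Bool :=
  decide ((x.2.2 = 0 ∧ y.2.2 = 0 ∧ ((x.1 = y.1 ∧ x.1 = x.2.1 ∧ ¬y.1 = y.2.1) ∨
    (¬x.1 = x.2.1 ∧ y.1 = x.2.1 ∧ y.2.1 = x.1))) ∨
    (x.1 = y.1 ∧ x.2.1 = y.2.1 ∧ x.2.2 = 0 ∧ ¬y.2.2 = 0))

def gam (x : Gr) : Gr := ((vs x).length, mkE (vs x) ad)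

theorem pt_gam : PT gam := by
  have h : PT vs := by unfold vs; fun_prop
  exact PT.pair h.length (PT.mkE (adj := fun _ => ad) h (by unfold ad; fun_prop))

theorem gam_spec (x : Gr) : Nonempty (gr (gam x).1 (gam x).2 ≃g Gam (gr x.1 x.2)) := by
  obtain ⟨p, p1, p2, -, p3⟩ := mkE_spec (vs x)
    ((List.nodup_range.product (List.nodup_range.product List.nodup_range)).filter _) ad
  let r : {v // Ok (gr x.1 x.2) v} → ℕ × ℕ × ℕ := fun v => (v.1.1, v.1.2.1, v.1.2.2)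
  have r1 : Function.Injective r := by
    rintro ⟨⟨a, b, k⟩, _⟩ ⟨⟨a', b', k'⟩, _⟩ h
    simpa [r, Fin.ext_iff] using h
  have r2 : Set.range p = Set.range r := by
    ext ⟨a, b, k⟩
    rw [Set.mem_range, ← p2]
    simp only [vs, List.mem_filter, List.mem_product, List.mem_range, decide_eq_true_eq]
    constructor
    · rintro ⟨⟨ha, hb, hk⟩, h⟩
      refine ⟨⟨(⟨a, ha⟩, ⟨b, hb⟩, k), ?_⟩, rfl⟩
      simp only [Ok, gr, fromRel_adj, ne_eq, Fin.ext_iff]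
      grind
    · rintro ⟨⟨⟨a', b', k'⟩, h⟩, e⟩
      obtain ⟨rfl, rfl, rfl⟩ : a'.1 = a ∧ b'.1 = b ∧ k' = k := by simpa [r] using e
      simp only [Ok, gr, fromRel_adj, ne_eq, Fin.ext_iff] at h
      have := a'.2
      have := b'.2
      grind
  let e := (Equiv.ofInjective p p1).trans ((Equiv.setCongr r2).trans (Equiv.ofInjective r r1).symm)
  have he : ∀ i, r (e i) = p i := fun i => by
    simp only [e, Equiv.trans_apply]
    rw [Equiv.apply_ofInjective_symm r1]; rfl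
  refine ⟨⟨e, fun {i j} => ?_⟩⟩
  refine Iff.trans ?_ (p3 i j).symm
  rw [← he, ← he]
  generalize e i = u, e j = v
  obtain ⟨⟨a, b, k⟩, _⟩ := u
  obtain ⟨⟨a', b', k'⟩, _⟩ := v
  simp only [Gam, Ad, CA, ad, r, ne_eq, Prod.mk.injEq, decide_eq_true_eq, Fin.ext_iff]
  omega

def pre (x : Gr × Gr) : Gr × Gr :=
  if x.1.1 = 0 ∧ x.2.1 = 0 then ((1, []), (1, [])) else
    if x.1.1 = 0 ∨ x.2.1 = 0 then ((1, []), (2, [])) else x

theorem iso_card {x : Gr × Gr} (h : Iso x) : x.1.1 = x.2.1 := by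
  obtain ⟨e⟩ := h
  simpa using Fintype.card_congr e.toEquiv

theorem pre_iso (x : Gr × Gr) : Iso x ↔ Iso (pre x) := by
  unfold pre
  split_ifs with h1 h2
  · obtain ⟨⟨n, E⟩, ⟨m, F⟩⟩ := x
    obtain ⟨rfl, rfl⟩ : n = 0 ∧ m = 0 := h1
    exact iff_of_true ⟨⟨Equiv.refl _, fun {a} => a.elim0⟩⟩ ⟨RelIso.refl _⟩
  · exact iff_of_false (fun h => by have := iso_card h; omega) fun h => by simpa using iso_card h
  · rfl

theorem gam_geo (x : Gr) (h : x.1 ≠ 0) : Geodetic (gr (gam x).1 (gam x).2) := by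
  obtain ⟨e⟩ := gam_spec x
  have : Nonempty (Fin (gam x).1) := ⟨e.symm (pt _ ⟨0, by omega⟩)⟩
  exact ((gam_crit _).iso e).geo

theorem result :
    (∃ f : Gr × Gr → Gr × Gr, PolyTime bits bits f ∧ ∀ x, Geo (f x) ∧ (Iso x ↔ Iso (f x))) ∧
    ((∃ A : Gr × Gr → Bool, PolyTime bits (fun b => [b]) A ∧ ∀ x, Geo x → (A x = true ↔ Iso x)) ↔
      InP Iso) := by
  have hp : PT pre := by unfold pre; fun_prop
  have hf : PT fun x => (gam (pre x).1, gam (pre x).2) :=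
    PT.pair (pt_gam.comp hp.fst) (pt_gam.comp hp.snd)
  have hs : ∀ x, Geo (gam (pre x).1, gam (pre x).2) ∧
      (Iso x ↔ Iso (gam (pre x).1, gam (pre x).2)) := by
    intro x
    refine ⟨⟨gam_geo _ ?_, gam_geo _ ?_⟩, (pre_iso x).trans ((gam_iso _ _).trans ?_)⟩
    · unfold pre; split_ifs <;> simp; omega
    · unfold pre; split_ifs <;> simp; omega
    · obtain ⟨e₁⟩ := gam_spec (pre x).1
      obtain ⟨e₂⟩ := gam_spec (pre x).2
      exact ⟨fun ⟨e⟩ => ⟨(e₁.trans e).trans e₂.symm⟩, fun ⟨e⟩ => ⟨(e₁.symm.trans e).trans e₂⟩⟩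
  refine ⟨⟨_, hf.polyTime, hs⟩, ?_, ?_⟩
  · rintro ⟨A, hA, h⟩
    have h1 : PT fun x => [A x] := Pool.Agent.H21.Sim.sim (PT.bits' PT.id) hA
    have h2 : PT A := (PT.headD h1 (PT.const false)).of_eq fun _ => rfl
    exact (h2.comp hf).inP fun x => (hs x).2.trans (h _ (hs x).1).symm
  · rintro ⟨A, hA, h⟩
    exact ⟨A, hA, fun x _ => (h x).symm⟩

end Pool.Agent.Results.MP_f934c9_lc.GI
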